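import Mathlib

/-! Non-integrality of cosines at a valuation. -/

namespace Pool.H20.Rect

open Real

/-- a valuation subring of `ℝ` in which the prime `p` is not invertible -/
theorem exists_valuationSubring (p : ℕ) (hp : p.Prime) :
    ∃ B : ValuationSubring ℝ, ((p : ℝ))⁻¹ ∉ B := by
  let A : Subring ℝ := (Int.castRingHom ℝ).range
  let a : A := ⟨(p : ℝ), ⟨(p : ℤ), by simp⟩⟩
  have hI : Ideal.span {a} ≠ ⊤ := by
    intro h
    rw [Ideal.span_singleton_eq_top] at h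
    obtain ⟨b, hb⟩ := h.exists_right_inv
    obtain ⟨⟨k, hk⟩⟩ : Nonempty {k : ℤ // (k : ℝ) = (b : ℝ)} := by
      obtain ⟨k, hk⟩ := b.2
      exact ⟨⟨k, by simpa using hk⟩⟩
    have h1 : (p : ℝ) * (k : ℝ) = 1 := by
      rw [hk]
      have := congrArg Subtype.val hb
      simpa [a] using this
    have h2 : (p : ℤ) * k = 1 := by exact_mod_cast h1
    have h3 : (p : ℤ) ∣ 1 := ⟨k, h2.symm⟩
    have h4 : (p : ℤ).natAbs = 1 := by
      have := Int.natAbs_dvd_natAbs.2 h3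
      simpa using this
    have : p = 1 := by simpa using h4
    exact hp.one_lt.ne' this
  obtain ⟨B, hAB, hB⟩ := Ideal.image_subset_nonunits_valuationSubring _ hI
  refine ⟨B, fun h => ?_⟩
  have h1 : ((a : A) : ℝ) ∈ B.nonunits := hB ⟨a, Ideal.subset_span rfl, rfl⟩
  have h2 : ((p : ℝ)⁻¹)⁻¹ ∈ B.nonunits := by rw [inv_inv]; exact h1
  rcases (B.inv_mem_nonunits_iff).1 h2 with h3 | h3
  · exact (inv_ne_zero (by exact_mod_cast hp.ne_zero)) h3
  · exact h3 h

/-- rational squares with `p` in the denominator are not squares of integral elements -/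
theorem not_mem_of_sq (p : ℕ) (hp : p.Prime) (B : ValuationSubring ℝ)
    (hB : ((p : ℝ))⁻¹ ∉ B) (c : ℝ) (q : ℚ) (hq : c ^ 2 = (q : ℝ)) (hpq : p ∣ q.den) : c ∉ B := by
  intro hc
  obtain ⟨d, hd⟩ := hpq
  have hcop : Nat.Coprime q.num.natAbs q.den := q.reduced
  have hcop' : IsCoprime q.num (p : ℤ) := by
    rw [Int.isCoprime_iff_gcd_eq_one, Int.gcd_eq_natAbs]
    have : Nat.Coprime q.num.natAbs p := Nat.Coprime.coprime_dvd_right ⟨d, hd⟩ hcop
    simpa using this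
  obtain ⟨u, w, huw⟩ := hcop'
  have hp0 : (p : ℝ) ≠ 0 := by exact_mod_cast hp.ne_zero
  have hq2 : (q.num : ℝ) = c ^ 2 * ((p : ℝ) * d) := by
    have h1 : (q : ℝ) * (q.den : ℝ) = q.num := by exact_mod_cast Rat.mul_den_eq_num q
    rw [← h1, hq, hd]; push_cast; ring
  apply hB
  have h2 : ((p : ℝ))⁻¹ = u * (c ^ 2 * d) + w := by
    have h3 : (u : ℝ) * q.num + w * p = 1 := by exact_mod_cast huw
    rw [hq2] at h3
    field_simp
    linarith
  rw [h2]
  exact add_mem (mul_mem (intCast_mem B u) (mul_mem (pow_mem hc 2) (natCast_mem B d)))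
    (intCast_mem B w)

section
variable (B : ValuationSubring ℝ) (hB : (2 : ℝ)⁻¹ ∉ B)

include hB

private theorem ne_zero_of_odd {w : ℝ} (h : (w - 1) / 2 ∈ B) : w ≠ 0 := by
  rintro rfl
  apply hB
  have : (2 : ℝ)⁻¹ = -((0 - 1) / 2) := by norm_num
  rw [this]
  exact neg_mem h

omit hB in
private theorem cos_even {t : ℝ} (hc : cos t ∈ B) (k : ℕ) : (cos ((2 * k : ℕ) * t) - 1) / 2 ∈ B ∧
    (cos ((2 * (k + 1) : ℕ) * t) - 1) / 2 ∈ B := by
  have h2 : cos (2 * t) = 2 * cos t ^ 2 - 1 := cos_two_mul t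
  have hc2 : cos (2 * t) ∈ B := by
    rw [h2]
    exact sub_mem (mul_mem (by exact_mod_cast natCast_mem B 2) (pow_mem hc 2)) (one_mem B)
  induction k with
  | zero =>
    refine ⟨by simp, ?_⟩
    have : (cos ((2 * (0 + 1) : ℕ) * t) - 1) / 2 = cos t ^ 2 - 1 := by
      norm_num
      rw [h2]; ring
    rw [this]
    exact sub_mem (pow_mem hc 2) (one_mem B)
  | succ k ih =>
    refine ⟨ih.2, ?_⟩
    have h3 : cos ((2 * (k + 1 + 1) : ℕ) * t) =
        2 * cos (2 * t) * cos ((2 * (k + 1) : ℕ) * t) - cos ((2 * k : ℕ) * t) := by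
      have e1 : ((2 * (k + 1 + 1) : ℕ) : ℝ) * t = ((2 * (k + 1) : ℕ) : ℝ) * t + 2 * t := by
        push_cast; ring
      have e2 : ((2 * k : ℕ) : ℝ) * t = ((2 * (k + 1) : ℕ) : ℝ) * t - 2 * t := by
        push_cast; ring
      rw [e1, e2, cos_add, cos_sub]; ring
    have h4 : (cos ((2 * (k + 1 + 1) : ℕ) * t) - 1) / 2 =
        cos (2 * t) * (2 * ((cos ((2 * (k + 1) : ℕ) * t) - 1) / 2) + 1)
          - ((cos ((2 * k : ℕ) * t) - 1) / 2) - 1 := by
      rw [h3]; ring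
    rw [h4]
    exact sub_mem (sub_mem (mul_mem hc2 (add_mem (mul_mem (by exact_mod_cast natCast_mem B 2) ih.2)
      (one_mem B))) ih.1) (one_mem B)

omit hB in
private theorem trig_odd {t : ℝ} (hc : cos t ∈ B) (k : ℕ) :
    ∃ u w u' w' : ℝ, cos ((2 * k + 1 : ℕ) * t) = cos t * u ∧ sin ((2 * k + 1 : ℕ) * t) = sin t * w ∧
      cos ((2 * k + 3 : ℕ) * t) = cos t * u' ∧ sin ((2 * k + 3 : ℕ) * t) = sin t * w' ∧
      (u - 1) / 2 ∈ B ∧ (w - 1) / 2 ∈ B ∧ (u' - 1) / 2 ∈ B ∧ (w' - 1) / 2 ∈ B := by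
  have h2 : cos (2 * t) = 2 * cos t ^ 2 - 1 := cos_two_mul t
  have htwo : (2 : ℝ) ∈ B := by exact_mod_cast natCast_mem B 2
  have hc2 : cos (2 * t) ∈ B := by
    rw [h2]
    exact sub_mem (mul_mem htwo (pow_mem hc 2)) (one_mem B)
  have hodd : ∀ {a b : ℝ}, (a - 1) / 2 ∈ B → (b - 1) / 2 ∈ B →
      ((2 * cos (2 * t) * b - a) - 1) / 2 ∈ B := by
    intro a b ha hb
    have : ((2 * cos (2 * t) * b - a) - 1) / 2 =
        cos (2 * t) * (2 * ((b - 1) / 2) + 1) - (a - 1) / 2 - 1 := by ring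
    rw [this]
    exact sub_mem (sub_mem (mul_mem hc2 (add_mem (mul_mem htwo hb) (one_mem B))) ha) (one_mem B)
  induction k with
  | zero =>
    refine ⟨1, 1, 4 * cos t ^ 2 - 3, 4 * cos t ^ 2 - 1, by simp, by simp, ?_, ?_, by simp, by simp,
      ?_, ?_⟩
    · norm_num
      rw [cos_three_mul]; ring
    · norm_num
      rw [sin_three_mul]
      have := sin_sq_add_cos_sq t
      have h5 : sin t ^ 3 = sin t * (1 - cos t ^ 2) := by rw [← this]; ring
      rw [h5]; ring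
    · have : ((4 * cos t ^ 2 - 3) - 1) / 2 = 2 * cos t ^ 2 - 2 := by ring
      rw [this]
      exact sub_mem (mul_mem htwo (pow_mem hc 2)) htwo
    · have : ((4 * cos t ^ 2 - 1) - 1) / 2 = 2 * cos t ^ 2 - 1 := by ring
      rw [this]
      exact sub_mem (mul_mem htwo (pow_mem hc 2)) (one_mem B)
  | succ k ih =>
    obtain ⟨u, w, u', w', h3, h4, h5, h6, h7, h8, h9, h10⟩ := ih
    have e0 : (2 * (k + 1) + 1 : ℕ) = 2 * k + 3 := by ring
    have e1 : ((2 * (k + 1) + 3 : ℕ) : ℝ) * t = ((2 * k + 3 : ℕ) : ℝ) * t + 2 * t := by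
      push_cast; ring
    have e2 : ((2 * k + 1 : ℕ) : ℝ) * t = ((2 * k + 3 : ℕ) : ℝ) * t - 2 * t := by
      push_cast; ring
    refine ⟨u', w', 2 * cos (2 * t) * u' - u, 2 * cos (2 * t) * w' - w, ?_, ?_, ?_, ?_, h9, h10,
      hodd h7 h9, hodd h8 h10⟩
    · rw [e0]; exact h5
    · rw [e0]; exact h6
    · have : cos (((2 * (k + 1) + 3 : ℕ) : ℝ) * t) =
          2 * cos (2 * t) * cos (((2 * k + 3 : ℕ) : ℝ) * t) - cos (((2 * k + 1 : ℕ) : ℝ) * t) := by
        rw [e1, e2, cos_add, cos_sub]; ring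
      rw [this, h5, h3]; ring
    · have : sin (((2 * (k + 1) + 3 : ℕ) : ℝ) * t) =
          2 * cos (2 * t) * sin (((2 * k + 3 : ℕ) : ℝ) * t) - sin (((2 * k + 1 : ℕ) : ℝ) * t) := by
        rw [e1, e2, sin_add, sin_sub]; ring
      rw [this, h6, h4]; ring

/-- The cosine of a rational multiple of `π` which is not a multiple of `π/2` is not integral at
any valuation at which `2` is not invertible. -/
theorem cos_not_mem {t : ℝ} (hs : sin t ≠ 0) (hc0 : cos t ≠ 0) {n : ℕ} (hn : 0 < n)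
    (hn0 : sin (n * t) = 0) : cos t ∉ B := by
  classical
  intro hc
  have hex : ∃ n : ℕ, 0 < n ∧ sin (n * t) = 0 := ⟨n, hn, hn0⟩
  obtain ⟨hN, hN0⟩ := Nat.find_spec hex
  set N := Nat.find hex with hNdef
  rcases Nat.even_or_odd' N with ⟨m, hm | hm⟩
  · have hm0 : 0 < m := by omega
    have hmN : m < N := by omega
    have h1 : sin (m * t) ≠ 0 := fun h => Nat.find_min hex hmN ⟨hm0, h⟩
    have h2 : cos (m * t) = 0 := by
      have h3 : sin ((N : ℕ) * t) = 2 * sin (m * t) * cos (m * t) := by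
        rw [← sin_two_mul, hm]; push_cast; ring_nf
      rw [h3] at hN0
      rcases mul_eq_zero.1 hN0 with h4 | h4
      · exact absurd (by simpa using h4) h1
      · exact h4
    rcases Nat.even_or_odd' m with ⟨k, hk | hk⟩
    · have h5 := (cos_even B hc k).1
      rw [← hk, h2] at h5
      exact ne_zero_of_odd B hB h5 rfl
    · obtain ⟨u, w, u', w', h3, h4, h5, h6, h7, h8, h9, h10⟩ := trig_odd B hc k
      rw [← hk, h2] at h3
      rcases mul_eq_zero.1 h3.symm with h11 | h11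
      · exact hc0 h11
      · exact ne_zero_of_odd B hB h7 h11
  · obtain ⟨u, w, u', w', h3, h4, h5, h6, h7, h8, h9, h10⟩ := trig_odd B hc m
    rw [← hm, hN0] at h4
    rcases mul_eq_zero.1 h4.symm with h11 | h11
    · exact hs h11
    · exact ne_zero_of_odd B hB h8 h11

end

end Pool.H20.Rect
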