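import Mathlib

/-! Algebraic form of the statement that no valuation makes all cosines large. -/

namespace Pool.H20.Rect

open MvPolynomial

/-- If no valuation subring of `ℝ` avoids all the numbers `c i`, then some integer polynomial
without constant term takes the value `1` at the inverses of the `c i`. -/
theorem exists_poly_of_no_valuation {ι : Type*} (c : ι → ℝ) (hc : ∀ i, c i ≠ 0)
    (h : ∀ B : ValuationSubring ℝ, ∃ i, c i ∈ B) :
    ∃ P : MvPolynomial ι ℤ, constantCoeff P = 0 ∧ aeval (fun i => (c i)⁻¹) P = 1 := by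
  classical
  let φ : MvPolynomial ι ℤ →+* ℝ := (aeval (R := ℤ) (fun i => (c i)⁻¹)).toRingHom
  let A : Subring ℝ := φ.range
  let ψ : MvPolynomial ι ℤ →+* A := φ.rangeRestrict
  have hψ : Function.Surjective ψ := φ.rangeRestrict_surjective
  have hval : ∀ P, ((ψ P : A) : ℝ) = aeval (fun i => (c i)⁻¹) P := fun P => rfl
  let J : Ideal A := Ideal.map ψ (RingHom.ker (constantCoeff (R := ℤ) (σ := ι)))
  by_cases hJ : J = ⊤
  · have h1 : (1 : A) ∈ J := by rw [hJ]; exact Submodule.mem_top
    obtain ⟨P, hP, hP1⟩ := (Ideal.mem_map_iff_of_surjective ψ hψ).1 h1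
    refine ⟨P, hP, ?_⟩
    rw [← hval, hP1]
    rfl
  · exfalso
    obtain ⟨B, hAB, hB⟩ := Ideal.image_subset_nonunits_valuationSubring J hJ
    obtain ⟨i, hi⟩ := h B
    have hX : ψ (X i) ∈ J := Ideal.mem_map_of_mem _ (by simp [RingHom.mem_ker])
    have h2 : (c i)⁻¹ ∈ B.nonunits := by
      have h3 : ((ψ (X i) : A) : ℝ) ∈ B.nonunits := hB ⟨ψ (X i), hX, rfl⟩
      rw [hval, aeval_X] at h3
      exact h3
    rcases (B.inv_mem_nonunits_iff).1 h2 with h3 | h3
    · exact hc i h3
    · exact h3 hi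

end Pool.H20.Rect
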